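import Pool.Agent.Lib_MP_8306f4_co.CaseB.Final

/-!
# The finite groups which are transitive automorphism groups of quasigroups

A finite group has a transitive representation by a quasigroup if and only if its Sylow
`2`-subgroups are noncyclic, or its centre has odd order and it is not one of five exceptions
(the dihedral groups of order `10` and `14`, the groups `C₃ × S₃` and `C₃² ⋊ C₂` (inversion) of
order `18`, and the Frobenius group `C₃² ⋊ C₄` of order `36`).

The theorem is stated for all finite groups which are solvable or have a complete mapping. By the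
theorems of Hall-Paige (Wilcox, Evans, Bray) and Feit-Thompson these are all finite groups. The
necessity of the condition is proved for all finite groups without any assumption.
-/

universe u

namespace Pool.Agent.Results.MP_8306f4_co.Classification

/-- `(Q, op)` is a quasigroup: the equations `a · x = b` and `y · a = b` are uniquely solvable. -/
def IsQuasigroup {Q : Type u} (op : Q → Q → Q) : Prop :=
  Nonempty Q ∧ (∀ a b : Q, ∃! x : Q, op a x = b) ∧ (∀ a b : Q, ∃! y : Q, op y a = b)

/-- The automorphism group of `(Q, op)`, a group of permutations of `Q`. -/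
def autGroup {Q : Type u} (op : Q → Q → Q) : Subgroup (Equiv.Perm Q) where
  carrier := {σ | ∀ x y : Q, σ (op x y) = op (σ x) (σ y)}
  one_mem' := fun _ _ => rfl
  mul_mem' := by
    intro σ τ hσ hτ x y
    change σ (τ (op x y)) = op (σ (τ x)) (σ (τ y))
    rw [hτ, hσ]
  inv_mem' := by
    intro σ hσ x y
    change σ⁻¹ (op x y) = op (σ⁻¹ x) (σ⁻¹ y)
    apply σ.injective
    rw [hσ]
    simp

/-- `(Q, op)` is a transitive representation of `G`: it is a quasigroup, its automorphism group is
isomorphic to `G`, and acts transitively on `Q`. -/
def IsTransitiveRep (G : Type u) [Group G] {Q : Type u} (op : Q → Q → Q) : Prop :=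
  IsQuasigroup op ∧ Nonempty (autGroup op ≃* G) ∧ ∀ x y : Q, ∃ σ ∈ autGroup op, σ x = y

/-- A complete mapping of `G`: a bijection `θ` such that `x ↦ x θ(x)` is a bijection. -/
def IsCompleteMapping {G : Type u} [Group G] (θ : G → G) : Prop :=
  Function.Bijective θ ∧ Function.Bijective (fun x => x * θ x)

/-- The elementary abelian group of order `9`. -/
abbrev V9 : Type := Multiplicative (ZMod 3 × ZMod 3)

/-- The automorphism `(x, y) ↦ (-x, -y)` of `V9`, of order `2`. -/
def neg9 : MulAut V9 :=
  AddEquiv.toMultiplicative
    { toFun := fun x => -x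
      invFun := fun x => -x
      left_inv := fun x => neg_neg x
      right_inv := fun x => neg_neg x
      map_add' := fun x y => by
        rw [neg_add] }

/-- The automorphism `(x, y) ↦ (-y, x)` of `V9`, of order `4`. -/
def quarter9 : MulAut V9 :=
  AddEquiv.toMultiplicative
    { toFun := fun x => (-x.2, x.1)
      invFun := fun x => (x.2, -x.1)
      left_inv := fun x => by
        ext <;> simp
      right_inv := fun x => by
        ext <;> simp
      map_add' := fun x y => by
        ext <;> simp [add_comm] }

/-- The exceptional groups: the dihedral groups of order `10` and `14`, `C₃ × S₃`, the semidirect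
product `C₃² ⋊ C₂` with `C₂` acting by inversion, and `C₃² ⋊ C₄` with `C₄` acting faithfully, a
generator acting as `(x, y) ↦ (-y, x)`. -/
def Exceptional (G : Type u) [Group G] : Prop :=
  Nonempty (G ≃* DihedralGroup 5) ∨ Nonempty (G ≃* DihedralGroup 7) ∨
  Nonempty (G ≃* Multiplicative (ZMod 3) × DihedralGroup 3) ∨
  Nonempty (G ≃* V9 ⋊[(Subgroup.zpowers neg9).subtype] (Subgroup.zpowers neg9)) ∨
  Nonempty (G ≃* V9 ⋊[(Subgroup.zpowers quarter9).subtype] (Subgroup.zpowers quarter9))

/-- The condition: noncyclic Sylow `2`-subgroups, or a centre of odd order without being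
exceptional. -/
def Condition (G : Type u) [Group G] : Prop :=
  (∀ S : Sylow 2 G, ¬ IsCyclic S) ∨ (Odd (Nat.card (Subgroup.center G)) ∧ ¬ Exceptional G)

lemma isQuasigroup_iff {Q : Type u} (op : Q → Q → Q) :
    IsQuasigroup op ↔ Pool.Agent.Lib_MP_8306f4_co.CaseB.IsQuasigroup' op := Iff.rfl

lemma isTransitiveRep_iff (G : Type u) [Group G] :
    (∃ (Q : Type u) (op : Q → Q → Q), IsTransitiveRep G op) ↔
      Pool.Agent.Lib_MP_8306f4_co.HasTransitiveRep G := by
  rw [Pool.Agent.Lib_MP_8306f4_co.CaseB.hasTransitiveRep_iff]
  rfl

lemma exceptional_iff (G : Type u) [Group G] :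
    Exceptional G ↔ Pool.Agent.Lib_MP_8306f4_co.CaseB.Exceptional G := Iff.rfl

/-- **Main theorem.** Let `G` be a finite group.
1. If `G` has a transitive representation by a quasigroup, then its Sylow `2`-subgroups are
noncyclic, or its centre has odd order and it is not exceptional.
2. If `G` is solvable or has a complete mapping, then the converse also holds. -/
theorem result :
    (∀ (G : Type u) [Group G] [Finite G],
      (∃ (Q : Type u) (op : Q → Q → Q), IsTransitiveRep G op) → Condition G) ∧
    (∀ (G : Type u) [Group G] [Finite G], (Group.IsSolvable G ∨ ∃ θ : G → G, IsCompleteMapping θ) →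
      ((∃ (Q : Type u) (op : Q → Q → Q), IsTransitiveRep G op) ↔ Condition G)) := by
  constructor
  · intro G _ _ h
    exact Pool.Agent.Lib_MP_8306f4_co.CaseB.condition_of_rep ((isTransitiveRep_iff G).1 h)
  · intro G _ _ h
    rw [isTransitiveRep_iff]
    exact Pool.Agent.Lib_MP_8306f4_co.CaseB.classification h

end Pool.Agent.Results.MP_8306f4_co.Classification
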