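import Pool.Agent.Lib_MP_8306f4_co.Regular
import Pool.Agent.Lib_MP_8306f4_co.Main

/-!
# Finite groups as regular automorphism groups of quasigroups

A finite group has a regular representation by a quasigroup if and only if it has a complete
mapping. For finite solvable groups, and for finite groups with a 2-complement, this is the case
if and only if the Sylow 2-subgroups are trivial or noncyclic.
-/

universe u

namespace Pool.Agent.Results.MP_8306f4_co.RegularRepresentations

/-- `(Q, op)` is a quasigroup: the equations `a · x = b` and `y · a = b` are uniquely solvable. -/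
def IsQuasigroup {Q : Type u} (op : Q → Q → Q) : Prop :=
  Nonempty Q ∧ (∀ a b : Q, ∃! x : Q, op a x = b) ∧ (∀ a b : Q, ∃! y : Q, op y a = b)

/-- The automorphism group of `(Q, op)`, a group of permutations of `Q`. -/
def autGroup {Q : Type u} (op : Q → Q → Q) : Subgroup (Equiv.Perm Q) where
  carrier := {σ | ∀ x y : Q, σ (op x y) = op (σ x) (σ y)}
  one_mem' := fun _ _ => rfl
  mul_mem' := by
    intro σ τ hσ hτ x y
    change σ (τ (op x y)) = op (σ (τ x)) (σ (τ y))
    rw [hτ, hσ]
  inv_mem' := by
    intro σ hσ x y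
    change σ⁻¹ (op x y) = op (σ⁻¹ x) (σ⁻¹ y)
    apply σ.injective
    rw [hσ]
    simp

/-- `(Q, op)` is a transitive representation of `G`: it is a quasigroup, its automorphism group is
isomorphic to `G`, and acts transitively on `Q`. -/
def IsTransitiveRep (G : Type u) [Group G] {Q : Type u} (op : Q → Q → Q) : Prop :=
  IsQuasigroup op ∧ Nonempty (autGroup op ≃* G) ∧ ∀ x y : Q, ∃ σ ∈ autGroup op, σ x = y

/-- `(Q, op)` is a regular representation of `G`: it is a transitive representation, and only the
identity automorphism has a fixed point. -/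
def IsRegularRep (G : Type u) [Group G] {Q : Type u} (op : Q → Q → Q) : Prop :=
  IsTransitiveRep G op ∧ ∀ σ ∈ autGroup op, ∀ x : Q, σ x = x → σ = 1

/-- A complete mapping of `G`: a bijection `θ` such that `x ↦ x θ(x)` is a bijection. -/
def IsCompleteMapping {G : Type u} [Group G] (θ : G → G) : Prop :=
  Function.Bijective θ ∧ Function.Bijective (fun x => x * θ x)

lemma isQuasigroup_iff {Q : Type u} (op : Q → Q → Q) :
    IsQuasigroup op ↔ Nonempty Q ∧ Pool.Agent.Lib_MP_8306f4_co.IsQuasigroup op := by
  unfold IsQuasigroup Pool.Agent.Lib_MP_8306f4_co.IsQuasigroup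
  simp only [Function.bijective_iff_existsUnique]

lemma isRegularRep_iff (G : Type u) [Group G] :
    (∃ (Q : Type u) (op : Q → Q → Q), IsRegularRep G op) ↔
      Pool.Agent.Lib_MP_8306f4_co.HasRegularRep G := by
  constructor
  · rintro ⟨Q, op, ⟨h1, h2, h3⟩, h4⟩
    rw [isQuasigroup_iff] at h1
    exact ⟨Q, op, h1.1, h1.2, h2, h3, h4⟩
  · rintro ⟨Q, op, h1, h2, h3, h4, h5⟩
    exact ⟨Q, op, ⟨(isQuasigroup_iff op).2 ⟨h1, h2⟩, h3, h4⟩, h5⟩

/-- the same notion in the form used by the library -/
lemma isRegularRep_iff' (G : Type u) [Group G] :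
    (∃ (Q : Type u) (op : Q → Q → Q), IsRegularRep G op) ↔ MP8306f4.AdmitsRegular G := by
  constructor
  · rintro ⟨Q, op, ⟨⟨h1, h2, h3⟩, ⟨e⟩, h4⟩, h5⟩
    exact ⟨Q, op, ⟨h1, h2, h3⟩, ⟨e⟩, h4, h5⟩
  · rintro ⟨Q, op, ⟨h1, h2, h3⟩, ⟨e⟩, h4, h5⟩
    exact ⟨Q, op, ⟨⟨h1, h2, h3⟩, ⟨e⟩, h4⟩, h5⟩

/-- **Main theorem.** A finite group has a regular representation by a quasigroup if and only if
it has a complete mapping. Explicitly, if the group is solvable or has a subgroup of odd order
whose index is a power of `2`, then it has a regular representation by a quasigroup if and only if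
its cyclic Sylow `2`-subgroups are trivial. -/
theorem result :
    (∀ (G : Type u) [Group G] [Finite G],
      (∃ (Q : Type u) (op : Q → Q → Q), IsRegularRep G op) ↔ ∃ θ : G → G, IsCompleteMapping θ) ∧
    (∀ (G : Type u) [Group G] [Finite G],
      (Group.IsSolvable G ∨ ∃ (K : Subgroup G) (k : ℕ), Odd (Nat.card K) ∧ K.index = 2 ^ k) →
      ((∃ (Q : Type u) (op : Q → Q → Q), IsRegularRep G op) ↔
        ∀ S : Sylow 2 G, IsCyclic S → Nat.card S = 1)) := by
  refine ⟨fun G _ _ => ?_, fun G _ _ hG => ?_⟩
  · rw [isRegularRep_iff, Pool.Agent.Lib_MP_8306f4_co.hasRegularRep_iff,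
      Pool.Agent.Lib_MP_8306f4_co.exists_orth_iff_complete]
    rfl
  · rw [isRegularRep_iff']
    constructor
    · intro h S hS
      exact MP8306f4.card_sylow_of_admitsRegular h S hS
    · intro h
      obtain ⟨S⟩ : Nonempty (Sylow 2 G) := inferInstance
      have hcomp : ∃ K : Subgroup G, Odd (Nat.card K) ∧
          Subgroup.IsComplement' K (S : Subgroup G) := by
        rcases hG with hs | ⟨K, k, hK, hk⟩
        · exact MP8306f4.exists_odd_complement S
        · exact ⟨K, hK, MP8306f4.isComplement_of_index S K hK hk⟩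
      obtain ⟨K, hK, hKS⟩ := hcomp
      exact MP8306f4.admitsRegular_of_rigid (MP8306f4.rigid_of_complement S K hK hKS (h S))

end Pool.Agent.Results.MP_8306f4_co.RegularRepresentations
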